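import Mathlib
import Pool.Agent.H879.Pos.Last

set_option autoImplicit false

/-!
# Small general fat points impose maximal conditions on every positive system of the plane

The case `r = 2` of the question; general points, arbitrary multiplicities. Let the points be divided
into a core, with arbitrary multiplicities `v`, and small points, with arbitrary multiplicities
`w i ≤ μ` (`v i = 0` or `w i = 0` for every `i`), in any number.

(1) Let `T ≥ 2 ^ 43 (μ + 1) ^ 11` and suppose that the class `L = (d; v)` is `Positive T`: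
`d e - ∑ v i c i ≥ 0` whenever there is a form of degree `e` with the multiplicities `c i` at the
general points, and `≥ T` whenever there are two independent ones. Suppose also that
`2 ^ 14 (μ + 1) ^ 3 (∑ v i - 3 d) ≤ d ^ 2 - ∑ (v i) ^ 2`, i.e. `K L` is small compared to `L ^ 2`.
Then the small points impose maximal conditions on `V_d (v)`:
`dim V_d (v + w) = max (0, dim V_d (v) - ∑ binom (w i + 1) 2)`. The bounds depend on `μ` only: not on
the core, nor on the number of its points. In particular `(d; v + w)` is not exceptional if `(d; v)`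
is not.

(2) The core of all multiplicities larger than `μ`, at most `k` of them, satisfies this if
`weight + 2 ^ 14 (μ + 1) ^ 3 √k + 2 ^ 43 (μ + 1) ^ 11 ≤ d`, where `weight` is the sum over `t ≥ 0` of
`max (min (N, 3), √N)` for the number `N` of the multiplicities larger than `max (t, μ)`. For
instance the nine largest multiplicities may be arbitrary: if all others are at most `m ≤ w 3` and
`k ≥ 9`, the weight is at most `w 1 + w 2 + w 3 + (√k - 3) m` for `w 1 ≥ w 2 ≥ w 3 ≥ …`.

(3) If at most `k` of the multiplicities are larger than `μ` (`k ≥ 9`), these being at most `m`, and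
`√k (m + 2 ^ 14 (μ + 1) ^ 3) + 2 ^ 43 (μ + 1) ^ 11 ≤ D`, then the tuple is not exceptional in any
degree `d ≥ D`, and in no degree at all if the length is at least `binom (D + 2) 2`.

(4) If exactly `k ≥ 9` of the multiplicities are equal to `m`, and all others at most `μ` (their
number is arbitrary), then only degrees `d` with
`√k m ≤ d < √k m + 2 ^ 14 (μ + 1) ^ 3 √k + 2 ^ 43 (μ + 1) ^ 11` can be exceptional, a window whose
length does not depend on `m`.

The proof. A curve through a general point moves, so that its self-intersection is almost at least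
the sum of the squares of its multiplicities (Xu, Ein - Lazarsfeld); with the Hodge index theorem
this gives emptiness of `L - ∑ w i E i` for `∑ (w i) ^ 2 ≥ (1 + 1 / q) L ^ 2`, even for `w i` up to
`T / (q + 1) ^ 2`, and so an upper bound of the dimensions up to `O (L ^ 2 / q)`. Ranks of conditions
at general points are submodular: a deficient small point would stay deficient when it is repeated,
which contradicts the upper bound; so small points impose independent conditions up to a margin.
Four points of multiplicity `x` collide to one of multiplicity `2 x`; after several doublings the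
margin is smaller than what is gained by the exactness of the collisions.
-/

namespace Pool.Agent.Results.MP_1dafdd_ag.SmallPointsOnPositiveCores

open MvPolynomial

/-- `V_d(Γ)`: the forms of degree `d` with multiplicity at least `m i` at `(P i 0 : P i 1 : 1)`. -/
noncomputable def V {n : ℕ} (d : ℕ) (m : Fin n → ℕ) (P : Fin n → Fin 2 → ℂ) :
    Submodule ℂ (MvPolynomial (Fin 3) ℂ) :=
  homogeneousSubmodule (Fin 3) ℂ d ⊓
    Submodule.restrictScalars ℂ
      (⨅ i : Fin n, (Ideal.span ({X 0 - C (P i 0) * X 2, X 1 - C (P i 1) * X 2} :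
        Set (MvPolynomial (Fin 3) ℂ))) ^ (m i))

/-- `dim V_d(Γ)` -/
noncomputable def dimV {n : ℕ} (d : ℕ) (m : Fin n → ℕ) (P : Fin n → Fin 2 → ℂ) : ℕ :=
  Module.finrank ℂ ↥(V d m P)

/-- The property holds for all `n`-tuples of points outside some hypersurface. -/
def ForGeneral {n : ℕ} (p : (Fin n → Fin 2 → ℂ) → Prop) : Prop :=
  ∃ F : MvPolynomial (Fin n × Fin 2) ℂ, F ≠ 0 ∧ ∀ P : Fin n → Fin 2 → ℂ,
    eval (fun ij : Fin n × Fin 2 => P ij.1 ij.2) F ≠ 0 → p P

/-- The length of the fat points. -/
def len {n : ℕ} (m : Fin n → ℕ) : ℕ := ∑ i, (m i + 1).choose 2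

/-- General points with the multiplicities `m` impose maximal conditions in degree `d`. -/
def Maximal {n : ℕ} (d : ℕ) (m : Fin n → ℕ) : Prop :=
  ForGeneral fun P => (dimV d m P : ℤ) = max 0 (((d + 2).choose 2 : ℤ) - len m)

/-- The class `(d; v)` is nonnegative on all curves and at least `T` on all which move. -/
def Positive (T : ℕ) {n : ℕ} (d : ℕ) (v : Fin n → ℕ) : Prop :=
  ∀ (e : ℕ) (c : Fin n → ℕ),
    ((ForGeneral fun P => 1 ≤ dimV e c P) → ∑ i, v i * c i ≤ d * e) ∧
    ((ForGeneral fun P => 2 ≤ dimV e c P) → ∑ i, v i * c i + T ≤ d * e)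

/-- The number of the multiplicities larger than `t`. -/
def above {n : ℕ} (w : Fin n → ℕ) (t : ℕ) : ℕ := (Finset.univ.filter fun i => t < w i).card

/-- The multiplicities larger than `μ`. -/
def large {n : ℕ} (w : Fin n → ℕ) (μ : ℕ) : Fin n → ℕ := fun i => if μ < w i then w i else 0

/-- The other multiplicities. -/
def small {n : ℕ} (w : Fin n → ℕ) (μ : ℕ) : Fin n → ℕ := fun i => if μ < w i then 0 else w i

/-- The sum over `t` of `max (min N 3) √N`, where `N` is the number of the multiplicities larger than
`max t μ` (the summands with `t` at least the largest multiplicity are zero). -/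
noncomputable def weight {n : ℕ} (w : Fin n → ℕ) (μ : ℕ) : ℝ :=
  ∑ t ∈ Finset.range (Finset.univ.sup (large w μ)),
    max (min (above w (max t μ) : ℝ) 3) √(above w (max t μ) : ℝ)

theorem dimV_eq {n : ℕ} (d : ℕ) (m : Fin n → ℕ) (P : Fin n → Fin 2 → ℂ) :
    dimV d m P = Module.finrank ℂ ↥(Pool.Agent.H248R5.forms m P d) := rfl

theorem weight_eq {n : ℕ} (w : Fin n → ℕ) (μ : ℕ) : weight w μ = H879.Pos.wt (large w μ) := by
  unfold weight H879.Pos.wt H879.Pos.rho
  refine Finset.sum_congr rfl fun t _ => ?_
  have h : above w (max t μ) = (Finset.univ.filter fun i => t < large w μ i).card := by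
    unfold above
    congr 1
    ext i
    rw [Finset.mem_filter, Finset.mem_filter]
    unfold large
    split_ifs with h <;> simp <;> omega
  rw [h]

theorem maximal_of_crk {n d : ℕ} {w : Fin n → ℕ}
    (h : Pool.Agent.Y205.MD.crk (Pool.Agent.TH387.SH.TF d) w =
      (d + 2).choose 2 - ∑ i, (w i + 1).choose 2) : Maximal d w := by
  obtain ⟨F, hF, h1⟩ := H879.Pos.gen_crk w d
  refine ⟨F, hF, fun P hP => ?_⟩
  have h2 := h1 P hP
  rw [h] at h2
  show (dimV d w P : ℤ) = max 0 (((d + 2).choose 2 : ℤ) - len w)
  rw [dimV_eq, h2]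
  unfold len
  omega

theorem maximal_add {n d : ℕ} {v w : Fin n → ℕ} (hvw : ∀ i, v i = 0 ∨ w i = 0)
    (key : Pool.Agent.Y205.MD.crk (Pool.Agent.TH387.SH.TF d) (fun i => v i + w i) =
      Pool.Agent.Y205.MD.crk (Pool.Agent.TH387.SH.TF d) v - ∑ i, (w i + 1).choose 2)
    (hmax : Maximal d v) : Maximal d (fun i => v i + w i) := by
  apply maximal_of_crk
  obtain ⟨P, h1, h2⟩ := (H879.Pos.Gen.and (H879.Pos.gen_crk v d) hmax).exists
  rw [dimV_eq, h1] at h2
  unfold len at h2
  have h3 := H879.Pos.crk_lower d v
  have h4 : ∑ i, (v i + w i + 1).choose 2 =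
      ∑ i, (v i + 1).choose 2 + ∑ i, (w i + 1).choose 2 := by
    rw [← Finset.sum_add_distrib]
    refine Finset.sum_congr rfl fun i _ => ?_
    rcases hvw i with h | h
    · rw [h]
      norm_num
    · rw [h]
      norm_num
  rw [h4, key]
  omega

theorem result :
    -- (1) small points on a positive core
    (∀ (n d μ T : ℕ) (v w : Fin n → ℕ), (∀ i, v i = 0 ∨ w i = 0) → (∀ i, w i ≤ μ) →
      2 ^ 43 * (μ + 1) ^ 11 ≤ T → Positive T d v →
      2 ^ 14 * (μ + 1) ^ 3 * ∑ i, v i + ∑ i, v i ^ 2 ≤
        2 ^ 14 * (μ + 1) ^ 3 * (3 * d) + d ^ 2 →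
      (ForGeneral fun P => (dimV d (fun i => v i + w i) P : ℤ) =
        max 0 ((dimV d v P : ℤ) - len w)) ∧
      (Maximal d v → Maximal d (fun i => v i + w i))) ∧
    -- (2) the large multiplicities as a core
    (∀ (n d μ k : ℕ) (w : Fin n → ℕ), above w μ ≤ k →
      weight w μ + 2 ^ 14 * ((μ : ℝ) + 1) ^ 3 * √(k : ℝ) + 2 ^ 43 * ((μ : ℝ) + 1) ^ 11 ≤ d →
      (ForGeneral fun P => (dimV d w P : ℤ) =
        max 0 ((dimV d (large w μ) P : ℤ) - len (small w μ))) ∧
      (Maximal d (large w μ) → Maximal d w)) ∧
    -- (3) at most `k` large multiplicities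
    (∀ (n D d m μ k : ℕ) (w : Fin n → ℕ), 9 ≤ k → above w μ ≤ k → (∀ i, μ < w i → w i ≤ m) →
      √(k : ℝ) * (m + 2 ^ 14 * ((μ : ℝ) + 1) ^ 3) + 2 ^ 43 * ((μ : ℝ) + 1) ^ 11 ≤ D →
      (D ≤ d ∨ (D + 2).choose 2 ≤ len w) → Maximal d w) ∧
    -- (4) `k` equal large multiplicities
    (∀ (n d m μ k : ℕ) (w : Fin n → ℕ), 9 ≤ k → (Finset.univ.filter fun i => w i = m).card = k →
      (∀ i, w i = m ∨ w i ≤ μ) → ¬ Maximal d w →
      √(k : ℝ) * m ≤ d ∧
        (d : ℝ) < √(k : ℝ) * (m + 2 ^ 14 * ((μ : ℝ) + 1) ^ 3) + 2 ^ 43 * ((μ : ℝ) + 1) ^ 11) := by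
  have e14 : (2 : ℕ) ^ 14 = 16384 := by norm_num
  have e43 : (2 : ℕ) ^ 43 = 8796093022208 := by norm_num
  have r14 : (2 : ℝ) ^ 14 = 16384 := by norm_num
  have r43 : (2 : ℝ) ^ 43 = 8796093022208 := by norm_num
  rw [e14, e43, r14, r43]
  refine ⟨fun n d μ T v w hvw hw hT hv hK => ?_, fun n d μ k w h9 hd => ?_,
    fun n D d m μ k w hk h9 hm hD hd => ?_, fun n d m μ k w hk h9 hm hf => ?_⟩
  · have hv' : H879.Pos.Posv T d v :=
      ⟨fun e c hc => (hv e c).1 (H879.Pos.gen_le.2 hc), fun e c hc =>
        (hv e c).2 (H879.Pos.gen_le.2 hc)⟩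
    have key := H879.Pos.small_crk hvw hw hT hv' hK
    refine ⟨((H879.Pos.gen_crk (fun i => v i + w i) d).and (H879.Pos.gen_crk v d)).mono
      fun P hP => ?_, maximal_add hvw key⟩
    rw [dimV_eq, dimV_eq, hP.1, hP.2, key]
    unfold len
    omega
  · have key := H879.Pos.gen_wt (d := d) (μ := μ) (κ := k) (w := w) h9
      (by rw [weight_eq] at hd; exact hd)
    have e2 : H879.Pos.large w μ = large w μ := rfl
    have e3 : H879.Pos.small w μ = small w μ := rfl
    rw [e2, e3] at key
    have e4 : (fun i => large w μ i + small w μ i) = w := H879.Pos.large_add w μ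
    refine ⟨((H879.Pos.gen_crk w d).and (H879.Pos.gen_crk (large w μ) d)).mono fun P hP => ?_,
      fun hmax => ?_⟩
    · rw [dimV_eq, dimV_eq, hP.1, hP.2, key]
      unfold len
      omega
    · have h5 := maximal_add (d := d) (v := large w μ) (w := small w μ)
        (fun i => by unfold large small; split_ifs <;> simp) (by rw [e4]; exact key) hmax
      rw [e4] at h5
      exact h5
  · exact maximal_of_crk (H879.Pos.crk_all hk h9 hm hD hd)
  · constructor
    · by_contra hcon
      push Not at hcon
      apply hf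
      apply maximal_of_crk
      have h1 := H879.Pos.crk_below hk h9 hcon
      have h2 := H879.Pos.crk_lower d w
      omega
    · by_contra hcon
      push Not at hcon
      apply hf
      apply maximal_of_crk
      refine H879.Pos.crk_all (m := m) hk ?_ (fun i hi => ?_) hcon (Or.inl le_rfl)
      · refine le_trans (Finset.card_le_card ?_) h9.le
        intro i hi
        rw [Finset.mem_filter] at hi ⊢
        refine ⟨hi.1, ?_⟩
        rcases hm i with h | h
        · exact h
        · omega
      · rcases hm i with h | h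
        · exact h.le
        · omega

end Pool.Agent.Results.MP_1dafdd_ag.SmallPointsOnPositiveCores
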