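import Mathlib
import Pool.Agent.H929.BG.All

/-!
# General fat points of arbitrary multiplicities: the expected dimension against the surface

Let `r ≥ 2`. For `k` general points of `ℙ^r` with multiplicities `m i ≥ 1` let, for every
multiplicity `v` which occurs, `V v = n_v v ^ r` be the volume of the `n_v` points of multiplicity
`v`. There is a constant `K = K(r)` such that for ALL tuples `(k, m, d)` the fat point scheme imposes
maximal conditions in degree `d`, if the expected dimension `χ` satisfies

  `|χ| ≥ K * (∑ v, V v ^ ((r - 1) / r) + ∑ w rare, w ^ r)`.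

A multiplicity `w` is rare if it occurs less than `K` times, or if there are points of smaller
multiplicities, but their volume `∑ (m i) ^ r` is less than `K w ^ r`. If there are no rare
multiplicities then the degrees `d` in which maximal conditions can fail satisfy `|d - T| < K q ^ (1 / r)`,
where `q` is the number of different multiplicities and `T ^ r = ∑ m i (m i + 1) ⋯ (m i + r - 1)`:
for a bounded number of different multiplicities this is a window of bounded length, and always
`∑ (m i) ^ r < d ^ r < ∑ (m i + r - 1) ^ r`. (For `r = 2` stronger results are known.)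

The proof: the simplex of the exponents of forms is cut by real hyperplanes through a vertex into
simplices, which are sheared and made thinner by specializing the points near nodal curves. At every
scale `H` the points of multiplicity `v` are used in clusters of `t ^ r` points, `t v ≈ H`, as long
as their volume is larger than `H ^ r`; each multiplicity is treated at its own sequence of scales,
which ends at the scale `v`.
-/

set_option autoImplicit false

namespace Pool.Agent.Results.MP_1dafdd_ag.VolumeAndSurface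

open Finset MvPolynomial
open scoped LinearAlgebra.Projectivization
open Pool.Agent.H350R3.MG

/-- `V_d(Γ)`: the forms of degree `d` vanishing to order at least `m i` at the `i`-th point. -/
noncomputable def forms {r k : ℕ} (d : ℕ) (m : Fin k → ℕ) (P : Fin k → ℙ ℂ (Fin (r + 1) → ℂ)) :
    Submodule ℂ (MvPolynomial (Fin (r + 1)) ℂ) :=
  homogeneousSubmodule (Fin (r + 1)) ℂ d ⊓
    Submodule.restrictScalars ℂ (⨅ i, primeIdeal (P i) ^ m i : Ideal (MvPolynomial (Fin (r + 1)) ℂ))

/-- The expected dimension `χ = binom (d + r) r - ∑ binom (m i + r - 1) r` (possibly negative). -/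
def expected (r d : ℕ) {k : ℕ} (m : Fin k → ℕ) : ℤ :=
  ((d + r).choose r : ℤ) - ∑ i, ((m i + r - 1).choose r : ℤ)

/-- `Γ` imposes maximal conditions in degree `d`. -/
def ImposesMaximalConditions {r k : ℕ} (d : ℕ) (m : Fin k → ℕ)
    (P : Fin k → ℙ ℂ (Fin (r + 1) → ℂ)) : Prop :=
  (Module.finrank ℂ (forms d m P) : ℤ) = max 0 (expected r d m)

/-- The multiplicities which occur. -/
def values {k : ℕ} (m : Fin k → ℕ) : Finset ℕ := univ.image m

/-- The number of the points of multiplicity `v`. -/
def number {k : ℕ} (m : Fin k → ℕ) (v : ℕ) : ℕ := (univ.filter fun i => m i = v).card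

/-- The volume `n_v v ^ r` of the points of multiplicity `v`. -/
noncomputable def volume (r : ℕ) {k : ℕ} (m : Fin k → ℕ) (v : ℕ) : ℝ :=
  (number m v : ℝ) * (v : ℝ) ^ r

/-- The multiplicity `w` is rare: it occurs less than `K` times, or there are points of smaller
multiplicities and their volume is less than `K w ^ r`. -/
def Rare (r : ℕ) (K : ℝ) {k : ℕ} (m : Fin k → ℕ) (w : ℕ) : Prop :=
  (number m w : ℝ) < K ∨
    ((∃ i, m i < w) ∧ ∑ i with m i < w, (m i : ℝ) ^ r < K * (w : ℝ) ^ r)

open Classical in
/-- The rare multiplicities which occur. -/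
noncomputable def rareValues (r : ℕ) (K : ℝ) {k : ℕ} (m : Fin k → ℕ) : Finset ℕ :=
  (values m).filter (Rare r K m)

/-- The critical degree: the number `T ≥ 0` with
`T ^ r = r! ∑ binom (m i + r - 1) r = ∑ m i (m i + 1) ⋯ (m i + r - 1)`. -/
noncomputable def critical (r : ℕ) {k : ℕ} (m : Fin k → ℕ) : ℝ :=
  ((r.factorial * ∑ i, (m i + r - 1).choose r : ℕ) : ℝ) ^ ((1 : ℝ) / r)

/-- For every `r ≥ 2` there is a constant `K` such that for all `k ≥ 1` and all multiplicities
`m i ≥ 1`:

(1) `k` general points of `ℙ^r` with the multiplicities `m i` impose maximal conditions in degree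
`d`, if `|χ| ≥ K * (∑ v, V v ^ ((r - 1) / r) + ∑ w rare, w ^ r)`.

If no multiplicity is rare:

(2) they impose maximal conditions in degree `d` if `|d - T| ≥ K q ^ (1 / r)`, where `T` is the
critical degree and `q` is the number of different multiplicities;

(3) they impose maximal conditions in degree `d` if `d ^ r ≤ ∑ (m i) ^ r` or
`d ^ r ≥ ∑ (m i + r - 1) ^ r`. -/
theorem result (r : ℕ) (hr : 2 ≤ r) : ∃ K : ℝ, 0 < K ∧
    ∀ (k : ℕ) (m : Fin k → ℕ), 1 ≤ k → (∀ i, 1 ≤ m i) →
      (∀ d : ℕ, K * (∑ v ∈ values m, volume r m v ^ (((r : ℝ) - 1) / r) +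
          ∑ w ∈ rareValues r K m, (w : ℝ) ^ r) ≤ |(expected r d m : ℝ)| →
        Generally (fun P : Fin k → ℙ ℂ (Fin (r + 1) → ℂ) => ImposesMaximalConditions d m P)) ∧
      ((∀ i, ¬ Rare r K m (m i)) →
        (∀ d : ℕ, K * ((values m).card : ℝ) ^ ((1 : ℝ) / r) ≤ |(d : ℝ) - critical r m| →
          Generally (fun P : Fin k → ℙ ℂ (Fin (r + 1) → ℂ) => ImposesMaximalConditions d m P)) ∧
        (∀ d : ℕ, (d ^ r ≤ ∑ i, m i ^ r ∨ ∑ i, (m i + r - 1) ^ r ≤ d ^ r) →
          Generally (fun P : Fin k → ℙ ℂ (Fin (r + 1) → ℂ) =>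
            ImposesMaximalConditions d m P))) := by
  obtain ⟨n, rfl⟩ : ∃ n, r = n + 1 := ⟨r - 1, by omega⟩
  obtain ⟨K, hK, h⟩ := Pool.Agent.H929.BG.main n (by omega)
  have e1 : (((n + 1 : ℕ) : ℝ) - 1) / ((n + 1 : ℕ) : ℝ) = (n : ℝ) / (n + 1) := by
    push_cast
    congr 1
    ring
  have e2 : (1 : ℝ) / ((n + 1 : ℕ) : ℝ) = 1 / ((n : ℝ) + 1) := by
    push_cast
    rfl
  refine ⟨K, hK, fun k m hk hm => ?_⟩
  obtain ⟨h1, h2⟩ := h k m hk hm
  refine ⟨fun d hd => ?_, fun hR => ?_⟩
  · refine h1 d (rareValues (n + 1) K m) (fun w hw hw' => ?_) ?_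
    · classical
      unfold rareValues
      exact mem_filter.2 ⟨hw, hw'⟩
    · rw [e1] at hd
      exact hd
  · refine ⟨fun d hd => ?_, fun d hd => ?_⟩
    · refine (h2 hR d).1 (critical (n + 1) m) (Real.rpow_nonneg (Nat.cast_nonneg _) _) ?_ ?_
      · unfold critical
        rw [← Real.rpow_natCast, ← Real.rpow_mul (Nat.cast_nonneg _), one_div,
          inv_mul_cancel₀ (by positivity), Real.rpow_one, mul_sum]
        push_cast
        refine sum_congr rfl fun i _ => ?_
        rw [← Pool.Agent.H929.BW.PP_nat]
        push_cast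
        rw [show n + 1 + m i - 1 = m i + (n + 1) - 1 by omega]
      · rw [e2] at hd
        exact hd
    · refine (h2 hR d).2 (hd.imp (fun h => ?_) fun h => ?_)
      · exact_mod_cast h
      · have e3 : ∀ i, m i + (n + 1) - 1 = m i + n := fun i => by omega
        simp only [e3] at h
        exact_mod_cast h

end Pool.Agent.Results.MP_1dafdd_ag.VolumeAndSurface
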